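import Pool.Agent.Lib.MP_524519_ag.DU5.Top

/-! # DU5, chapter NUM: the numerical end (helper19) -/

set_option autoImplicit false

namespace Pool.Agent.DU5.NUM

open Finset

theorem sum_triple (p : ℕ) (L : ℕ → ℕ) :
    ∑ v : Fin 3 → Fin p, L (∑ i, (v i : ℕ)) =
      ∑ a ∈ range p, ∑ b ∈ range p, ∑ c ∈ range p, L (a + b + c) := by
  let e : (Fin 3 → Fin p) ≃ Fin p × Fin p × Fin p :=
    { toFun := fun v => (v 0, v 1, v 2)
      invFun := fun x => ![x.1, x.2.1, x.2.2]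
      left_inv := by
        intro v
        funext i
        fin_cases i <;> rfl
      right_inv := by
        intro x
        rfl }
  rw [Fintype.sum_equiv e (fun v : Fin 3 → Fin p => L (∑ i, (v i : ℕ)))
    (fun x => L ((x.1 : ℕ) + x.2.1 + x.2.2)) (by intro v; simp only [Fin.sum_univ_three]; rfl)]
  rw [Fintype.sum_prod_type]
  simp_rw [Fintype.sum_prod_type]
  rw [← Fin.sum_univ_eq_sum_range (fun a => ∑ b ∈ range p, ∑ c ∈ range p, L (a + b + c)) p]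
  refine Finset.sum_congr rfl fun a _ => ?_
  rw [← Fin.sum_univ_eq_sum_range (fun b => ∑ c ∈ range p, L (a + b + c)) p]
  refine Finset.sum_congr rfl fun b _ => ?_
  rw [← Fin.sum_univ_eq_sum_range (fun c => L (a + b + c)) p]

theorem inner_bound (p : ℕ) (L D : ℕ → ℕ) (hL : ∀ i j, i ≤ j → L i ≤ L j)
    (hLD : ∀ j, L j + D (j + p) ≤ L (j + p)) (t : ℕ) :
    p * L 0 + ∑ j ∈ range t, D (j + p) ≤ ∑ c ∈ range p, L (t + c) := by
  induction t with
  | zero =>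
    have := Finset.card_nsmul_le_sum (range p) (fun c => L (0 + c)) (L 0)
      (fun c _ => hL 0 (0 + c) (Nat.zero_le _))
    simpa using this
  | succ t ih =>
    have h1 : ∑ c ∈ range p, L (t + 1 + c) + L t = ∑ c ∈ range p, L (t + c) + L (t + p) := by
      have h2 := Finset.sum_range_succ' (fun c => L (t + c)) p
      have h3 := Finset.sum_range_succ (fun c => L (t + c)) p
      have h4 : ∑ c ∈ range p, L (t + 1 + c) = ∑ c ∈ range p, L (t + (c + 1)) :=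
        Finset.sum_congr rfl fun c _ => by rw [show t + 1 + c = t + (c + 1) by ring]
      rw [h4, ← h3, h2, Nat.add_zero]
    have h5 := hLD t
    rw [Finset.sum_range_succ]
    omega

/-- The weights of a sum over `a + b`. -/
theorem sum_pair (f : ℕ → ℤ) (n : ℕ) :
    ∑ a ∈ range n, ∑ b ∈ range n, f (a + b) =
      ∑ t ∈ range n, ((t : ℤ) + 1) * f t + ∑ u ∈ range n, ((n : ℤ) - 1 - u) * f (n + u) := by
  induction n with
  | zero => simp
  | succ n ih =>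
    have h1 : ∑ a ∈ range (n + 1), ∑ b ∈ range (n + 1), f (a + b) =
        ∑ a ∈ range n, ∑ b ∈ range n, f (a + b) + 2 * ∑ u ∈ range n, f (n + u) + f (n + n) := by
      rw [Finset.sum_range_succ]
      have : ∀ a ∈ range n, ∑ b ∈ range (n + 1), f (a + b) =
          ∑ b ∈ range n, f (a + b) + f (n + a) := by
        intro a _
        rw [Finset.sum_range_succ, add_comm a n]
      rw [Finset.sum_congr rfl this, Finset.sum_add_distrib, Finset.sum_range_succ]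
      ring
    have h2 : ∑ u ∈ range (n + 1), (((n + 1 : ℕ) : ℤ) - 1 - u) * f (n + 1 + u) =
        ∑ u ∈ range n, ((n : ℤ) - 1 - u) * f (n + u) + 2 * ∑ u ∈ range n, f (n + u) + f (n + n)
          - ((n : ℤ) + 1) * f n := by
      have h3 := Finset.sum_range_succ' (fun v : ℕ => ((n : ℤ) + 1 - v) * f (n + v)) (n + 1)
      have h4 := Finset.sum_range_succ (fun v : ℕ => ((n : ℤ) + 1 - v) * f (n + v)) (n + 1)
      have h5 := Finset.sum_range_succ (fun v : ℕ => ((n : ℤ) + 1 - v) * f (n + v)) n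
      have h6 : ∑ u ∈ range (n + 1), (((n + 1 : ℕ) : ℤ) - 1 - u) * f (n + 1 + u) =
          ∑ k ∈ range (n + 1), ((n : ℤ) + 1 - ((k + 1 : ℕ) : ℤ)) * f (n + (k + 1)) := by
        refine Finset.sum_congr rfl fun u _ => ?_
        rw [show n + 1 + u = n + (u + 1) by ring]
        push_cast
        ring
      have h7 : ∑ v ∈ range n, ((n : ℤ) + 1 - v) * f (n + v) =
          ∑ u ∈ range n, ((n : ℤ) - 1 - u) * f (n + u) + 2 * ∑ u ∈ range n, f (n + u) := by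
        rw [Finset.mul_sum, ← Finset.sum_add_distrib]
        refine Finset.sum_congr rfl fun u _ => ?_
        ring
      rw [h6]
      push_cast at h3 h4 h5 ⊢
      simp only [add_zero] at h3
      linarith
    rw [h1, ih, Finset.sum_range_succ (fun t : ℕ => ((t : ℤ) + 1) * f t), h2]
    ring

theorem sum_T (A : ℕ → ℤ) (n : ℕ) :
    2 * ∑ t ∈ range n, ((t : ℤ) + 1) * ∑ j ∈ range t, A j =
      ∑ i ∈ range n, ((n : ℤ) * (n + 1) - ((i : ℤ) + 1) * (i + 2)) * A i := by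
  induction n with
  | zero => simp
  | succ n ih =>
    rw [Finset.sum_range_succ, mul_add, ih, Finset.sum_range_succ
      (fun i : ℕ => (((n + 1 : ℕ) : ℤ) * ((n + 1 : ℕ) + 1) - ((i : ℤ) + 1) * (i + 2)) * A i)]
    have : ∑ i ∈ range n, (((n + 1 : ℕ) : ℤ) * ((n + 1 : ℕ) + 1) - ((i : ℤ) + 1) * (i + 2)) * A i =
        ∑ i ∈ range n, ((n : ℤ) * (n + 1) - ((i : ℤ) + 1) * (i + 2)) * A i +
          2 * ((n : ℤ) + 1) * ∑ i ∈ range n, A i := by
      rw [Finset.mul_sum, ← Finset.sum_add_distrib]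
      refine Finset.sum_congr rfl fun i _ => ?_
      push_cast
      ring
    rw [this]
    push_cast
    ring

theorem sum_lin (n : ℕ) : 2 * ∑ u ∈ range n, ((n : ℤ) - 1 - u) = (n : ℤ) * (n - 1) := by
  have : ∀ m : ℕ, 2 * ∑ u ∈ range m, ((n : ℤ) - 1 - u) = 2 * (m : ℤ) * (n - 1) - m * (m - 1) := by
    intro m
    induction m with
    | zero => simp
    | succ m ih => rw [Finset.sum_range_succ, mul_add, ih]; push_cast; ring
  rw [this n]; ring

theorem sum_quad (n : ℕ) :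
    6 * ∑ u ∈ range n, ((n : ℤ) - 1 - u) * u = (n : ℤ) * (n - 1) * (n - 2) := by
  have : ∀ m : ℕ, 6 * ∑ u ∈ range m, ((n : ℤ) - 1 - u) * u =
      3 * ((n : ℤ) - 1) * (m * (m - 1)) - (m : ℤ) * (m - 1) * (2 * m - 1) := by
    intro m
    induction m with
    | zero => simp
    | succ m ih => rw [Finset.sum_range_succ, mul_add, ih]; push_cast; ring
  rw [this n]; ring

/-- The lower bound for the double sum of `T`. -/
theorem double_bound (A : ℕ → ℤ) (n : ℕ) (hA : ∀ i j, i ≤ j → A i ≤ A j) :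
    ∑ i ∈ range n, 3 * (2 * (n : ℤ) ^ 2 - ((i : ℤ) + 1) * (i + 2)) * A i +
      (n : ℤ) * (n - 1) * (n - 2) * A n ≤
      6 * ∑ a ∈ range n, ∑ b ∈ range n, ∑ j ∈ range (a + b), A j := by
  rw [sum_pair (fun t => ∑ j ∈ range t, A j) n]
  have h1 := sum_T A n
  have h2 : ∀ u ∈ range n, ((n : ℤ) - 1 - u) * (∑ j ∈ range n, A j) +
      (((n : ℤ) - 1 - u) * u) * A n ≤ ((n : ℤ) - 1 - u) * ∑ j ∈ range (n + u), A j := by
    intro u hu
    have hu' := Finset.mem_range.1 hu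
    have h3 : (∑ j ∈ range n, A j) + u * A n ≤ ∑ j ∈ range (n + u), A j := by
      rw [Finset.sum_range_add]
      have := Finset.card_nsmul_le_sum (range u) (fun c => A (n + c)) (A n)
        (fun c _ => hA n (n + c) (Nat.le_add_right _ _))
      simp only [card_range, nsmul_eq_mul] at this
      linarith
    have h4 : (0 : ℤ) ≤ (n : ℤ) - 1 - u := by
      have : (u : ℤ) + 1 ≤ n := by exact_mod_cast hu'
      linarith
    have h5 := mul_le_mul_of_nonneg_left h3 h4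
    linarith
  have h6 := Finset.sum_le_sum h2
  rw [Finset.sum_add_distrib, ← Finset.sum_mul, ← Finset.sum_mul] at h6
  have h7 := sum_lin n
  have h8 := sum_quad n
  have h9 : ∑ i ∈ range n, 3 * (2 * (n : ℤ) ^ 2 - ((i : ℤ) + 1) * (i + 2)) * A i =
      3 * ∑ i ∈ range n, ((n : ℤ) * (n + 1) - ((i : ℤ) + 1) * (i + 2)) * A i +
        3 * ((n : ℤ) * (n - 1)) * ∑ j ∈ range n, A j := by
    rw [Finset.mul_sum, Finset.mul_sum, ← Finset.sum_add_distrib]
    refine Finset.sum_congr rfl fun i _ => ?_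
    ring
  have h10 : (n : ℤ) * (n - 1) * (n - 2) * A n = 6 * ((∑ u ∈ range n, ((n : ℤ) - 1 - u) * u) * A n) := by
    rw [← h8]; ring
  rw [h10, h9, ← h1, ← h7]
  linarith

/-- Pairing of `i` and `n - i`, `n = 2q + 1`. -/
theorem pairing (A : ℕ → ℤ) (q : ℕ) (E : ℤ) (hA0 : ∀ i, 0 ≤ A i) (hA : ∀ i j, i ≤ j → A i ≤ A j)
    (hE : ∀ i j, 2 * q + 1 ≤ i + j → E ≤ A i + A j) :
    ∑ i ∈ range q, ((2 * (2 * (q : ℤ) + 1) ^ 2 - ((i : ℤ) + 2) * (i + 3)) * E -
      ((2 * (q : ℤ) - 1 - 2 * i) * (2 * q + 4)) * A (2 * q + 1)) ≤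
    ∑ i ∈ range (2 * q + 1), (2 * (2 * (q : ℤ) + 1) ^ 2 - ((i : ℤ) + 1) * (i + 2)) * A i := by
  rw [Finset.sum_range_succ', two_mul q, Finset.sum_range_add,
    ← Finset.sum_range_reflect (fun x : ℕ => (2 * (2 * (q : ℤ) + 1) ^ 2 -
      (((q + x + 1 : ℕ) : ℤ) + 1) * (((q + x + 1 : ℕ) : ℤ) + 2)) * A (q + x + 1)) q,
    ← Finset.sum_add_distrib]
  have h0 : (0 : ℤ) ≤ (2 * (2 * (q : ℤ) + 1) ^ 2 - (((0 : ℕ) : ℤ) + 1) * (((0 : ℕ) : ℤ) + 2)) * A 0 := by
    apply mul_nonneg _ (hA0 0)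
    push_cast
    nlinarith [sq_nonneg (q : ℤ), Int.natCast_nonneg q]
  refine le_trans ?_ (le_add_of_nonneg_right h0)
  refine Finset.sum_le_sum fun i hi => ?_
  have hi' := Finset.mem_range.1 hi
  obtain ⟨k, rfl⟩ : ∃ k, q = i + 1 + k := ⟨q - 1 - i, by omega⟩
  have e1 : i + 1 + k + (i + 1 + k - 1 - i) + 1 = i + 2 + 2 * k := by omega
  rw [e1]
  have e2 : i + 1 + k + (i + 1 + k) + 1 = 2 * (i + 1 + k) + 1 := by ring
  rw [e2]
  have hs := hE (i + 1) (i + 2 + 2 * k) (by omega)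
  have hm := hA (i + 2 + 2 * k) (2 * (i + 1 + k) + 1) (by omega)
  have hw1 : (0 : ℤ) ≤ 2 * (2 * ((i + 1 + k : ℕ) : ℤ) + 1) ^ 2 - (((i + 1 : ℕ) : ℤ) + 1) * (((i + 1 : ℕ) : ℤ) + 2) := by
    push_cast
    nlinarith [Int.natCast_nonneg i, Int.natCast_nonneg k, mul_nonneg (Int.natCast_nonneg i) (Int.natCast_nonneg k)]
  have h1 := mul_le_mul_of_nonneg_left hs hw1
  have hw2 : (0 : ℤ) ≤ (2 * ((i + 1 + k : ℕ) : ℤ) - 1 - 2 * i) * (2 * ((i + 1 + k : ℕ) : ℤ) + 4) := by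
    push_cast
    have hi0 := Int.natCast_nonneg i
    have hk0 := Int.natCast_nonneg k
    apply mul_nonneg <;> linarith
  have h2 := mul_le_mul_of_nonneg_left hm hw2
  push_cast at h1 h2 ⊢
  nlinarith [h1, h2]

theorem sum_one (q : ℕ) (P : ℤ) : 3 * ∑ i ∈ range q, (P - ((i : ℤ) + 2) * (i + 3)) =
    3 * P * q - (((q : ℤ) + 1) * (q + 2) * (q + 3) - 6) := by
  induction q with
  | zero => simp
  | succ q ih => rw [Finset.sum_range_succ, mul_add, ih]; push_cast; ring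

theorem sum_two (q : ℕ) : ∑ i ∈ range q, ((2 * (q : ℤ) - 1 - 2 * i) * (2 * q + 4)) =
    (q : ℤ) ^ 2 * (2 * q + 4) := by
  have : ∀ m : ℕ, ∑ i ∈ range m, ((2 * (q : ℤ) - 1 - 2 * i) * (2 * q + 4)) =
      (m : ℤ) * (2 * q - m) * (2 * q + 4) := by
    intro m
    induction m with
    | zero => simp
    | succ m ih => rw [Finset.sum_range_succ, ih]; push_cast; ring
  rw [this q]; ring

/-- The lower bound with `p = 2q + 1`. -/
theorem lower (A : ℕ → ℤ) (q : ℕ) (E d : ℤ) (hq : 7 ≤ q) (hA0 : ∀ i, 0 ≤ A i)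
    (hA : ∀ i j, i ≤ j → A i ≤ A j) (hE : ∀ i j, 2 * q + 1 ≤ i + j → E ≤ A i + A j)
    (hd : E + d ≤ 2 * A (2 * q + 1)) :
    E * (24 * (q : ℤ) ^ 3 + 12 * q ^ 2 - 6 * q) + d * (q * (q ^ 2 - 6 * q - 1)) ≤
      6 * ∑ a ∈ range (2 * q + 1), ∑ b ∈ range (2 * q + 1), ∑ j ∈ range (a + b), A j := by
  refine le_trans ?_ (double_bound A (2 * q + 1) hA)
  have h1 := pairing A q E hA0 hA hE
  rw [Finset.sum_sub_distrib, ← Finset.sum_mul, ← Finset.sum_mul, sum_two] at h1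
  have h2 := sum_one q (2 * (2 * (q : ℤ) + 1) ^ 2)
  have h3 : ∑ i ∈ range (2 * q + 1), 3 * (2 * ((2 * q + 1 : ℕ) : ℤ) ^ 2 - ((i : ℤ) + 1) * (i + 2)) * A i =
      3 * ∑ i ∈ range (2 * q + 1), (2 * (2 * (q : ℤ) + 1) ^ 2 - ((i : ℤ) + 1) * (i + 2)) * A i := by
    rw [Finset.mul_sum]
    refine Finset.sum_congr rfl fun i _ => ?_
    push_cast
    ring
  rw [h3]
  have hq' : (7 : ℤ) ≤ q := by exact_mod_cast hq
  have hc : (0 : ℤ) ≤ 2 * (q : ℤ) * (q ^ 2 - 6 * q - 1) := by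
    apply mul_nonneg (by linarith)
    nlinarith
  have h4 := mul_le_mul_of_nonneg_left hd hc
  set S := ∑ i ∈ range (2 * q + 1), (2 * (2 * (q : ℤ) + 1) ^ 2 - ((i : ℤ) + 1) * (i + 2)) * A i
  set S1 := ∑ i ∈ range q, (2 * (2 * (q : ℤ) + 1) ^ 2 - ((i : ℤ) + 2) * (i + 3))
  set Ap := A (2 * q + 1)
  push_cast
  have h5 : 3 * (S1 * E) = (3 * (2 * (2 * (q : ℤ) + 1) ^ 2) * q -
      (((q : ℤ) + 1) * (q + 2) * (q + 3) - 6)) * E := by rw [← h2]; ring
  nlinarith [h1, h4, h5]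

theorem choose_three (n : ℕ) : 6 * (((n + 2).choose 3 : ℕ) : ℤ) = (n : ℤ) * (n + 1) * (n + 2) := by
  induction n with
  | zero => simp [Nat.choose]
  | succ n ih =>
    have h1 : (n + 1 + 2).choose 3 = (n + 2).choose 2 + (n + 2).choose 3 := Nat.choose_succ_succ _ _
    have h2 : 2 * (((n + 2).choose 2 : ℕ) : ℤ) = ((n : ℤ) + 1) * (n + 2) := by
      have h3 : (n + 2).choose 2 * 2 = (n + 2) * (n + 1) := by
        rw [Nat.choose_two_right]
        have : 2 ∣ (n + 2) * (n + 2 - 1) := by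
          have := Nat.even_mul_succ_self (n + 1)
          rw [mul_comm]
          simpa using this.two_dvd
        rw [Nat.div_mul_cancel this]
        simp
      have h4 : (((n + 2).choose 2 : ℕ) : ℤ) * 2 = ((n : ℤ) + 2) * (n + 1) := by exact_mod_cast h3
      linarith
    rw [h1]
    push_cast
    nlinarith [h2, ih]

set_option maxHeartbeats 4000000 in
theorem final (q m d E e g S C1 C2 : ℤ) (hq0 : 7 ≤ q) (hm0 : 0 ≤ m) (hE0 : 0 ≤ E) (he0 : 0 ≤ e)
    (hd' : 2 ≤ d) (hq' : 200 * (m + 2) ^ 2 ≤ q) (hg : m + 1 ≤ 6 * g) (hem' : e + d ≤ m + E + 1)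
    (hEm' : E ≤ d * (m + 1))
    (h2 : (2 * q + 1) * ((2 * q + 1) * ((2 * q + 1) * g)) + S ≤ C1 * (d + 2 * E) + C2 * e)
    (h3 : E * (24 * q ^ 3 + 12 * q ^ 2 - 6 * q) + d * (q * (q ^ 2 - 6 * q - 1)) ≤ 6 * S)
    (c1 : 6 * C1 = 2 * q * (2 * q + 1) * (2 * q + 2))
    (c2 : 6 * C2 = (2 * q + 1) * (2 * q + 1 + 1) * (2 * q + 1 + 2)) : False := by
  have k1 : 6 * ((2 * q + 1) * ((2 * q + 1) * ((2 * q + 1) * g))) +
      (E * (24 * q ^ 3 + 12 * q ^ 2 - 6 * q) + d * (q * (q ^ 2 - 6 * q - 1))) ≤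
      (2 * q) * (2 * q + 1) * (2 * q + 2) * (d + 2 * E) +
      (2 * q + 1) * (2 * q + 1 + 1) * (2 * q + 1 + 2) * e := by
    rw [← c1, ← c2]
    linarith
  have hp0 : (0 : ℤ) ≤ (2 * q + 1) ^ 3 := pow_nonneg (by linarith) 3
  have k4 : ((2 * q + 1) ^ 3) * (m + 1) ≤ ((2 * q + 1) ^ 3) * (6 * g) :=
    mul_le_mul_of_nonneg_left hg hp0
  have k5 : ((2 * q + 1) ^ 3) * (e + d) ≤ ((2 * q + 1) ^ 3) * (m + E + 1) :=
    mul_le_mul_of_nonneg_left hem' hp0
  have hdq : 0 ≤ d * q := mul_nonneg (by linarith) (by linarith)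
  have hEq : 0 ≤ E * q := mul_nonneg hE0 (by linarith)
  have heq : 0 ≤ e * q := mul_nonneg he0 (by linarith)
  -- the remainder
  have k6 : d * (q * (q ^ 2 - 6 * q - 1)) ≤
      6 * E * (2 * q + 1) ^ 2 + e * (3 * (2 * q + 1) ^ 2 + 2 * (2 * q + 1)) := by
    linarith [k1, k4, k5, hdq, hEq, heq]
  have hdm : 2 * m ≤ d * m := mul_le_mul_of_nonneg_right hd' hm0
  have hqq : 7 * q ≤ q ^ 2 := by
    have := mul_le_mul_of_nonneg_right hq0 (show (0 : ℤ) ≤ q by linarith)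
    linarith
  have k8 : E ≤ d * (m + 2) := by linarith
  have k7 : e ≤ 2 * (d * (m + 2)) := by linarith
  have k9 : (2 * q + 1) ^ 2 ≤ 9 * q ^ 2 := by linarith
  have k10 : 3 * (2 * q + 1) ^ 2 + 2 * (2 * q + 1) ≤ 33 * q ^ 2 := by linarith
  have hdm0 : 0 ≤ d * (m + 2) := mul_nonneg (by linarith) (by linarith)
  have k11 : 6 * E * (2 * q + 1) ^ 2 ≤ 54 * (d * (m + 2)) * q ^ 2 := by
    have := mul_le_mul k8 k9 (sq_nonneg _) hdm0
    linarith
  have k12 : e * (3 * (2 * q + 1) ^ 2 + 2 * (2 * q + 1)) ≤ 66 * (d * (m + 2)) * q ^ 2 := by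
    have := mul_le_mul k7 k10 (by nlinarith [sq_nonneg (2 * q + 1)]) (by linarith)
    linarith
  have k13 : d * (q * (q ^ 2 - 6 * q - 1)) ≤ d * (q * (120 * (m + 2) * q)) := by
    linarith
  have k14 : q ^ 2 - 6 * q - 1 ≤ 120 * (m + 2) * q := by
    have hd0 : (0 : ℤ) < d := by linarith
    have hq00 : (0 : ℤ) < q := by linarith
    exact le_of_mul_le_mul_left (le_of_mul_le_mul_left k13 hd0) hq00
  have k15 : 400 * (m + 2) ≤ q := by nlinarith
  nlinarith [mul_le_mul_of_nonneg_right k15 (show (0 : ℤ) ≤ q by linarith)]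

end Pool.Agent.DU5.NUM

namespace Pool.Agent.DU5

open Finset

theorem num : NUMStatement := by
  intro p d m E e L D hp hd1 hdm hEm hem hpm hL hD hLD hDE hDd hS
  have hp2 : 2 < p := by nlinarith
  obtain ⟨q, rfl⟩ : ∃ q, p = 2 * q + 1 := by
    obtain ⟨q, hq⟩ := hp.odd_of_ne_two (by omega)
    exact ⟨q, hq⟩
  have hq1 : 200 * (m + 2) ^ 2 ≤ q := by omega
  have hq7 : 7 ≤ q := by nlinarith
  -- the sum
  rw [NUM.sum_triple] at hS
  have h1 : ∑ a ∈ range (2 * q + 1), ∑ b ∈ range (2 * q + 1), ((2 * q + 1) * L 0 +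
      ∑ j ∈ range (a + b), D (j + (2 * q + 1))) ≤
      (2 * q + 1 + 1).choose 3 * (d + 2 * E) + (2 * q + 1 + 2).choose 3 * e := by
    refine le_trans (Finset.sum_le_sum fun a _ => Finset.sum_le_sum fun b _ => ?_) hS
    exact NUM.inner_bound (2 * q + 1) L D hL hLD (a + b)
  simp only [Finset.sum_add_distrib, Finset.sum_const, card_range, smul_eq_mul] at h1
  have h2 : ((2 * (q : ℤ) + 1) * ((2 * q + 1) * ((2 * q + 1) * L 0)) +
      ∑ a ∈ range (2 * q + 1), ∑ b ∈ range (2 * q + 1),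
        ∑ j ∈ range (a + b), ((D (j + (2 * q + 1)) : ℕ) : ℤ)) ≤
      (((2 * q + 1 + 1).choose 3 : ℕ) : ℤ) * (d + 2 * E) + (((2 * q + 1 + 2).choose 3 : ℕ) : ℤ) * e := by
    exact_mod_cast h1
  have h3 := NUM.lower (fun j => ((D (j + (2 * q + 1)) : ℕ) : ℤ)) q E d hq7
    (fun i => Int.natCast_nonneg _) (fun i j hij => by exact_mod_cast hD _ _ (by omega))
    (fun i j hij => by
      have := hDE (i + (2 * q + 1)) (j + (2 * q + 1)) (by omega)
      exact_mod_cast this)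
    (by
      have h4 : 2 * q + 1 + (2 * q + 1) = 2 * (2 * q + 1) := by ring
      simp only [h4]
      exact_mod_cast hDd)
  have c1 := NUM.choose_three (2 * q)
  have c2 := NUM.choose_three (2 * q + 1)
  have e1 : 2 * q + 1 + 1 = 2 * q + 2 := by ring
  rw [e1] at h2
  set S := ∑ a ∈ range (2 * q + 1), ∑ b ∈ range (2 * q + 1),
        ∑ j ∈ range (a + b), ((D (j + (2 * q + 1)) : ℕ) : ℤ)
  set C1 : ℤ := (((2 * q + 2).choose 3 : ℕ) : ℤ)
  set C2 : ℤ := (((2 * q + 1 + 2).choose 3 : ℕ) : ℤ)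
  push_cast at c1 c2
  by_contra hcon
  push Not at hcon
  have hg : (m : ℤ) + 1 ≤ 6 * L 0 := by exact_mod_cast hcon
  have hem' : (e : ℤ) + d ≤ m + E + 1 := by exact_mod_cast hem
  have hEm' : (E : ℤ) ≤ d * (m + 1) := by exact_mod_cast hEm
  have hd' : (2 : ℤ) ≤ d := by exact_mod_cast hd1
  have hm0 : (0 : ℤ) ≤ m := Int.natCast_nonneg m
  have hE0 : (0 : ℤ) ≤ E := Int.natCast_nonneg E
  have he0 : (0 : ℤ) ≤ e := Int.natCast_nonneg e
  have hq' : (200 : ℤ) * (m + 2) ^ 2 ≤ q := by exact_mod_cast hq1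
  have hq0 : (7 : ℤ) ≤ q := by exact_mod_cast hq7
  exact NUM.final q m d E e (L 0) S C1 C2 hq0 hm0 hE0 he0 hd' hq' hg hem' hEm' h2 h3 c1 c2

end Pool.Agent.DU5
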